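import Pool.Agent.TH613.Contact

set_option autoImplicit false

open scoped ContDiff RealInnerProductSpace Topology
open Set MeasureTheory Filter

namespace Pool.Agent.TH613

variable {R s r : ℝ} {f : ℝ × ℝ → E3}

/-- a coordinate -/
noncomputable def co (i : Fin 3) : E3 →L[ℝ] ℝ := EuclideanSpace.proj i

theorem co_apply (i : Fin 3) (y : E3) : co i y = y i := rfl

/-- the last two coordinates -/
noncomputable def pr : E3 →L[ℝ] ℝ × ℝ := (co 1).prod (co 2)

theorem pr_apply (y : E3) : pr y = (y 1, y 2) := rfl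

/-- the conical extension of `σ N` -/
noncomputable def Phi (R s r : ℝ) (f : ℝ × ℝ → E3) (σ : ℝ) (y : E3) : E3 :=
  (σ * y 0) • NN R s r f (pr y)

/-- its derivative -/
noncomputable def Phi' (R s r : ℝ) (f : ℝ × ℝ → E3) (σ : ℝ) (y : E3) : E3 →L[ℝ] E3 :=
  (σ * y 0) • (fderiv ℝ (NN R s r f) (pr y)).comp pr +
    (σ • (co 0)).smulRight
      (NN R s r f (pr y))

theorem hasFDerivAt_Phi (h : Rot R s r f) (σ : ℝ) (y : E3) :
    HasFDerivAt (Phi R s r f σ) (Phi' R s r f σ y) y := by
  have h1 : HasFDerivAt (fun y : E3 => NN R s r f (pr y))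
      ((fderiv ℝ (NN R s r f) (pr y)).comp pr) y :=
    (d_NN h (pr y)).hasFDerivAt.comp y pr.hasFDerivAt
  have h2 : HasFDerivAt (fun y : E3 => σ * y 0)
      (σ • (co 0)) y :=
    ((co 0).hasFDerivAt (x := y)).const_mul σ
  exact h2.smul h1

theorem det_of_columns (T : E3 →L[ℝ] E3) :
    T.det = ⟪T (EuclideanSpace.single 0 1), cr (T (EuclideanSpace.single 1 1))
      (T (EuclideanSpace.single 2 1))⟫ := by
  have h1 : T.det = LinearMap.det (T : E3 →ₗ[ℝ] E3) := rfl
  rw [h1, ← LinearMap.det_toMatrix (EuclideanSpace.basisFun (Fin 3) ℝ).toBasis,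
    Matrix.det_fin_three, inner3, cr_zero, cr_one, cr_two]
  simp only [LinearMap.toMatrix_apply, OrthonormalBasis.coe_toBasis,
    EuclideanSpace.basisFun_apply, OrthonormalBasis.coe_toBasis_repr_apply,
    EuclideanSpace.basisFun_repr, ContinuousLinearMap.coe_coe]
  ring

theorem det_Phi' (h : Rot R s r f) (σ : ℝ) (y : E3) :
    (Phi' R s r f σ y).det = σ ^ 3 * (y 0) ^ 2 * (s * Real.cos (y 2) / r) := by
  rw [det_of_columns]
  have e0 : Phi' R s r f σ y (EuclideanSpace.single 0 1) = σ • NN R s r f (pr y) := by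
    simp [Phi', pr, co]
    right
    exact map_zero _
  have e1 : Phi' R s r f σ y (EuclideanSpace.single 1 1) =
      (σ * y 0) • Du (NN R s r f) (pr y) := by
    simp [Phi', pr, co, Du]
  have e2 : Phi' R s r f σ y (EuclideanSpace.single 2 1) =
      (σ * y 0) • Dv (NN R s r f) (pr y) := by
    simp [Phi', pr, co, Dv]
  rw [e0, e1, e2]
  have hcr : ∀ (a b : ℝ) (x z : E3), cr (a • x) (b • z) = (a * b) • cr x z := by
    intro a b x z
    ext i
    fin_cases i <;> simp [cr] <;> ring
  rw [hcr, real_inner_smul_left, real_inner_smul_right, det_N h, pr_apply]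
  ring

/-- the coordinate box -/
def Box : Set E3 := {y | y 0 ∈ Ioo (0 : ℝ) 1 ∧ y 1 ∈ Ico 0 (2 * Real.pi) ∧
  y 2 ∈ Ico (-Real.pi) Real.pi}

theorem measurable_coord (i : Fin 3) : Measurable fun y : E3 => y i :=
  (co i).measurable

theorem measurableSet_Box : MeasurableSet Box := by
  unfold Box
  exact ((measurable_coord 0) measurableSet_Ioo).inter
    (((measurable_coord 1) measurableSet_Ico).inter ((measurable_coord 2) measurableSet_Ico))

/-- the part of the box over the set `E` -/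
def SS (E : Set (ℝ × ℝ)) : Set E3 := Box ∩ pr ⁻¹' E

theorem measurableSet_SS {E : Set (ℝ × ℝ)} (hE : IsClosed E) : MeasurableSet (SS E) :=
  measurableSet_Box.inter (pr.measurable hE.measurableSet)

/-- the density -/
noncomputable def dens (k : ℝ) (y : E3) : ENNReal := ENNReal.ofReal (|(y 0) ^ 2 * (k * Real.cos (y 2))|)

theorem volume_image_le (h : Rot R s r f) {σ : ℝ} (hσ : |σ| = 1) {E : Set (ℝ × ℝ)}
    (hE : IsClosed E) :
    volume (Phi R s r f σ '' SS E) ≤ ∫⁻ y in SS E, dens (s / r) y := by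
  refine (addHaar_image_le_lintegral_abs_det_fderiv volume (measurableSet_SS hE)
    (fun y _ => (hasFDerivAt_Phi h σ y).hasFDerivWithinAt)).trans (le_of_eq ?_)
  refine lintegral_congr fun y => ?_
  rw [det_Phi' h]
  unfold dens
  congr 1
  have : σ ^ 3 * (y 0) ^ 2 * (s * Real.cos (y 2) / r) =
      σ ^ 3 * ((y 0) ^ 2 * (s / r * Real.cos (y 2))) := by ring
  rw [this, abs_mul, abs_pow, hσ]; simp

/-- the part of the box where the curvature is nonnegative -/
def BoxP : Set E3 := {y | y 0 ∈ Ioo (0 : ℝ) 1 ∧ y 1 ∈ Ico 0 (2 * Real.pi) ∧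
  y 2 ∈ Icc (-(Real.pi / 2)) (Real.pi / 2)}

theorem measurableSet_BoxP : MeasurableSet BoxP := by
  unfold BoxP
  exact ((measurable_coord 0) measurableSet_Ioo).inter
    (((measurable_coord 1) measurableSet_Ico).inter ((measurable_coord 2) measurableSet_Icc))

theorem mem_BoxP {y : E3} (hy : y ∈ Box) (hc : 0 ≤ Real.cos (y 2)) : y ∈ BoxP := by
  refine ⟨hy.1, hy.2.1, ?_⟩
  have h1 := hy.2.2
  constructor
  · by_contra hcon
    push Not at hcon
    have h2 : Real.cos (y 2) < 0 := by
      rw [← Real.cos_neg]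
      exact Real.cos_neg_of_pi_div_two_lt_of_lt (by linarith) (by linarith [h1.1])
    linarith
  · by_contra hcon
    push Not at hcon
    have h2 : Real.cos (y 2) < 0 :=
      Real.cos_neg_of_pi_div_two_lt_of_lt hcon (by linarith [h1.2, Real.pi_pos])
    linarith

theorem sum_le (h : Rot R s r f) (hs : 0 < s) :
    (∫⁻ y in SS (Ep R s r f), dens (s / r) y) + (∫⁻ y in SS (Em R s r f), dens (s / r) y) ≤
      ∫⁻ y in BoxP, dens (s / r) y := by
  have m1 := measurableSet_SS (isClosed_Ep h)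
  have m2 := measurableSet_SS (isClosed_Em h)
  have hm : Measurable (dens (s / r)) := by
    unfold dens
    have h0 := measurable_coord 0
    have h2 := measurable_coord 2
    fun_prop
  rw [← lintegral_indicator m1, ← lintegral_indicator m2, ← lintegral_indicator measurableSet_BoxP,
    ← lintegral_add_left (hm.indicator m1)]
  refine lintegral_mono fun y => ?_
  by_cases h1 : y ∈ SS (Ep R s r f) <;> by_cases h2 : y ∈ SS (Em R s r f)
  · have h3 : Real.cos (y 2) = 0 := cos_zero_of_both h hs h1.2 h2.2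
    have h4 : dens (s / r) y = 0 := by unfold dens; rw [h3]; simp
    simp [indicator, h4]
  · have h3 : 0 ≤ Real.cos (y 2) := cos_nonneg_of_contact h hs (Or.inl h1.2)
    simp [indicator_of_mem h1, indicator_of_notMem h2, indicator_of_mem (mem_BoxP h1.1 h3)]
  · have h3 : 0 ≤ Real.cos (y 2) := cos_nonneg_of_contact h hs (Or.inr h2.2)
    simp [indicator_of_notMem h1, indicator_of_mem h2, indicator_of_mem (mem_BoxP h2.1 h3)]
  · simp [indicator_of_notMem h1, indicator_of_notMem h2]

theorem ball_subset (h : Rot R s r f) (h1 : ∀ x : ℝ × ℝ, f (x.1 + 2 * Real.pi, x.2) = f x)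
    (h2 : ∀ x : ℝ × ℝ, f (x.1, x.2 + 2 * Real.pi) = f x) :
    Metric.ball (0 : E3) 1 ⊆ {0} ∪ (Phi R s r f 1 '' SS (Ep R s r f) ∪
      Phi R s r f (-1) '' SS (Em R s r f)) := by
  intro w hw
  by_cases hw0 : w = 0
  · left; exact hw0
  right
  have hn : 0 < ‖w‖ := norm_pos_iff.2 hw0
  have hn1 : ‖w‖ < 1 := by simpa using hw
  have hν : ⟪‖w‖⁻¹ • w, ‖w‖⁻¹ • w⟫ = 1 := by
    rw [real_inner_smul_left, real_inner_smul_right, real_inner_self_eq_norm_sq]
    field_simp
  obtain ⟨p, b1, b2, hp⟩ := exists_contact h h1 h2 hν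
  have hy : ∃ y : E3, y 0 = ‖w‖ ∧ pr y = p := ⟨!₂[‖w‖, p.1, p.2], rfl, rfl⟩
  obtain ⟨y, hy0, hyp⟩ := hy
  have hbox : y ∈ Box := by
    have e1 : y 1 = p.1 := by rw [← hyp]; rfl
    have e2 : y 2 = p.2 := by rw [← hyp]; rfl
    refine ⟨?_, ?_, ?_⟩
    · rw [hy0]; exact ⟨hn, hn1⟩
    · rw [e1]; exact b1
    · rw [e2]; exact b2
  rcases hp with ⟨hN, hE⟩ | ⟨hN, hE⟩
  · left
    refine ⟨y, ⟨hbox, by simpa [hyp] using hE⟩, ?_⟩
    unfold Phi
    rw [hyp, hN, hy0, smul_smul, one_mul, mul_inv_cancel₀ hn.ne', one_smul]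
  · right
    refine ⟨y, ⟨hbox, by simpa [hyp] using hE⟩, ?_⟩
    unfold Phi
    rw [hyp, hN, hy0, smul_neg, smul_smul, neg_one_mul, neg_mul, neg_smul, neg_neg,
      mul_inv_cancel₀ hn.ne', one_smul]

theorem lintegral_BoxP {k : ℝ} (hk : 0 ≤ k) :
    ∫⁻ y in BoxP, dens k y = ENNReal.ofReal (k * (4 * Real.pi / 3)) := by
  -- the integrand as a product
  let F : Fin 3 → ℝ → ℝ := ![(Ioo (0 : ℝ) 1).indicator fun x => x ^ 2,
    (Ico (0 : ℝ) (2 * Real.pi)).indicator fun _ => 1,
    (Icc (-(Real.pi / 2)) (Real.pi / 2)).indicator fun x => k * Real.cos x]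
  have hF0 : ∫ x, F 0 x = 1 / 3 := by
    change ∫ x, (Ioo (0 : ℝ) 1).indicator (fun x => x ^ 2) x = _
    rw [integral_indicator measurableSet_Ioo, ← integral_Ioc_eq_integral_Ioo,
      ← intervalIntegral.integral_of_le (by norm_num)]
    rw [integral_pow]; norm_num
  have hF1 : ∫ x, F 1 x = 2 * Real.pi := by
    change ∫ x, (Ico (0 : ℝ) (2 * Real.pi)).indicator (fun _ => (1 : ℝ)) x = _
    rw [integral_indicator measurableSet_Ico]
    simp [Real.pi_pos.le]
  have hF2 : ∫ x, F 2 x = k * 2 := by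
    change ∫ x, (Icc (-(Real.pi / 2)) (Real.pi / 2)).indicator (fun x => k * Real.cos x) x = _
    rw [integral_indicator measurableSet_Icc, integral_Icc_eq_integral_Ioc,
      ← intervalIntegral.integral_of_le (by linarith [Real.pi_pos]),
      intervalIntegral.integral_const_mul, integral_cos]
    rw [Real.sin_neg, Real.sin_pi_div_two]; ring
  have i0 : Integrable (F 0) := by
    change Integrable ((Ioo (0 : ℝ) 1).indicator fun x => x ^ 2)
    rw [integrable_indicator_iff measurableSet_Ioo]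
    exact ((continuous_pow 2).integrableOn_Icc (a := 0) (b := 1)).mono_set Ioo_subset_Icc_self
  have i1 : Integrable (F 1) := by
    change Integrable ((Ico (0 : ℝ) (2 * Real.pi)).indicator fun _ => (1 : ℝ))
    rw [integrable_indicator_iff measurableSet_Ico]
    exact (continuous_const.integrableOn_Icc (a := 0) (b := 2 * Real.pi)).mono_set Ico_subset_Icc_self
  have i2 : Integrable (F 2) := by
    change Integrable ((Icc (-(Real.pi / 2)) (Real.pi / 2)).indicator fun x => k * Real.cos x)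
    rw [integrable_indicator_iff measurableSet_Icc]
    exact (continuous_const.mul Real.continuous_cos).integrableOn_Icc
  have hint : Integrable (fun x : Fin 3 → ℝ => ∏ i, F i (x i)) := by
    refine Integrable.fintype_prod (f := F) fun i => ?_
    fin_cases i
    · exact i0
    · exact i1
    · exact i2
  have hnn : ∀ x : Fin 3 → ℝ, 0 ≤ ∏ i, F i (x i) := by
    intro x
    rw [Fin.prod_univ_three]
    refine mul_nonneg (mul_nonneg ?_ ?_) ?_
    · exact indicator_nonneg (fun x _ => sq_nonneg x) _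
    · exact indicator_nonneg (fun _ _ => zero_le_one) _
    · exact indicator_nonneg (fun x hx => mul_nonneg hk
        (Real.cos_nonneg_of_mem_Icc hx)) _
  have h1 : ∫⁻ x : Fin 3 → ℝ, ENNReal.ofReal (∏ i, F i (x i)) =
      ENNReal.ofReal (k * (4 * Real.pi / 3)) := by
    rw [← ofReal_integral_eq_lintegral_ofReal hint (Eventually.of_forall hnn)]
    have h2 := integral_fintype_prod_eq_prod F (μ := fun _ => (volume : Measure ℝ))
    have h3 : ∫ x : Fin 3 → ℝ, ∏ i, F i (x i) = ∏ i, ∫ x, F i x := h2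
    rw [h3, Fin.prod_univ_three, hF0, hF1, hF2]
    congr 1; ring
  rw [← h1, ← lintegral_indicator measurableSet_BoxP]
  have hmp := EuclideanSpace.volume_preserving_symm_measurableEquiv_toLp (Fin 3)
  have h4 := hmp.lintegral_comp_emb (MeasurableEquiv.measurableEmbedding _)
    (fun x : Fin 3 → ℝ => ENNReal.ofReal (∏ i, F i (x i)))
  rw [← h4]
  refine lintegral_congr fun y => ?_
  rw [Fin.prod_univ_three]
  change BoxP.indicator (dens k) y = ENNReal.ofReal
    ((Ioo (0 : ℝ) 1).indicator (fun x => x ^ 2) (y 0) *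
      (Ico (0 : ℝ) (2 * Real.pi)).indicator (fun _ => 1) (y 1) *
      (Icc (-(Real.pi / 2)) (Real.pi / 2)).indicator (fun x => k * Real.cos x) (y 2))
  by_cases hy : y ∈ BoxP
  · rw [indicator_of_mem hy, indicator_of_mem hy.1, indicator_of_mem hy.2.1,
      indicator_of_mem hy.2.2]
    unfold dens
    rw [abs_of_nonneg (mul_nonneg (sq_nonneg _) (mul_nonneg hk
      (Real.cos_nonneg_of_mem_Icc hy.2.2)))]
    congr 1; ring
  · rw [indicator_of_notMem hy]
    by_cases h0 : y 0 ∈ Ioo (0 : ℝ) 1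
    · by_cases h1 : y 1 ∈ Ico 0 (2 * Real.pi)
      · by_cases h2 : y 2 ∈ Icc (-(Real.pi / 2)) (Real.pi / 2)
        · exact absurd ⟨h0, h1, h2⟩ hy
        · rw [indicator_of_notMem h2]; simp
      · rw [indicator_of_notMem h1]; simp
    · rw [indicator_of_notMem h0]; simp

/-- the total positive curvature of a closed immersed surface is at least `4π` -/
theorem no_immersion (h : Rot R s r f) (hs : 0 < s) (hsr : s < r)
    (h1 : ∀ x : ℝ × ℝ, f (x.1 + 2 * Real.pi, x.2) = f x)
    (h2 : ∀ x : ℝ × ℝ, f (x.1, x.2 + 2 * Real.pi) = f x) : False := by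
  have hr := h.hr
  have hπ := Real.pi_pos
  have k1 : volume (Metric.ball (0 : E3) 1) ≤ ENNReal.ofReal (s / r * (4 * Real.pi / 3)) := by
    calc volume (Metric.ball (0 : E3) 1) ≤ volume ({(0 : E3)} ∪ (Phi R s r f 1 '' SS (Ep R s r f) ∪
          Phi R s r f (-1) '' SS (Em R s r f))) := measure_mono (ball_subset h h1 h2)
      _ ≤ volume {(0 : E3)} + (volume (Phi R s r f 1 '' SS (Ep R s r f)) +
          volume (Phi R s r f (-1) '' SS (Em R s r f))) :=
        (measure_union_le _ _).trans (by gcongr; exact measure_union_le _ _)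
      _ ≤ 0 + ((∫⁻ y in SS (Ep R s r f), dens (s / r) y) +
          ∫⁻ y in SS (Em R s r f), dens (s / r) y) := by
        gcongr
        · simp
        · exact volume_image_le h (by simp) (isClosed_Ep h)
        · exact volume_image_le h (by simp) (isClosed_Em h)
      _ ≤ ∫⁻ y in BoxP, dens (s / r) y := by rw [zero_add]; exact sum_le h hs
      _ = _ := lintegral_BoxP (by positivity)
  rw [EuclideanSpace.volume_ball_fin_three] at k1
  simp only [ENNReal.ofReal_one, one_pow, one_mul] at k1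
  rw [ENNReal.ofReal_le_ofReal_iff (by positivity)] at k1
  have k2 : s / r < 1 := by rw [div_lt_one hr]; exact hsr
  have k3 : s / r * (4 * Real.pi / 3) < 1 * (4 * Real.pi / 3) :=
    mul_lt_mul_of_pos_right k2 (by positivity)
  linarith

end Pool.Agent.TH613
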