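import Mathlib

set_option autoImplicit false

open scoped ContDiff RealInnerProductSpace Topology
open Set MeasureTheory

namespace Pool.Agent.TH613

/-- Euclidean 3-space -/
abbrev E3 := EuclideanSpace ℝ (Fin 3)

section Calc
variable {V : Type*} [NormedAddCommGroup V] [NormedSpace ℝ V]

/-- first partial derivative -/
noncomputable def Du (f : ℝ × ℝ → V) : ℝ × ℝ → V := fun x => fderiv ℝ f x (1, 0)

/-- second partial derivative -/
noncomputable def Dv (f : ℝ × ℝ → V) : ℝ × ℝ → V := fun x => fderiv ℝ f x (0, 1)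

theorem contDiff_Du {f : ℝ × ℝ → V} {n : ℕ} (hf : ContDiff ℝ (n + 1) f) :
    ContDiff ℝ n (Du f) :=
  (hf.fderiv_right le_rfl).clm_apply contDiff_const

theorem contDiff_Dv {f : ℝ × ℝ → V} {n : ℕ} (hf : ContDiff ℝ (n + 1) f) :
    ContDiff ℝ n (Dv f) :=
  (hf.fderiv_right le_rfl).clm_apply contDiff_const

theorem Dv_Du {f : ℝ × ℝ → V} (hf : ContDiff ℝ 2 f) : Dv (Du f) = Du (Dv f) := by
  have h1 : ContDiff ℝ 1 (fderiv ℝ f) := hf.fderiv_right (by norm_num)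
  have hd : Differentiable ℝ (fderiv ℝ f) := h1.differentiable (by norm_num)
  funext w
  have hsym : IsSymmSndFDerivAt ℝ f w := hf.contDiffAt.isSymmSndFDerivAt (by simp)
  have e1 : ∀ (a b : ℝ × ℝ), fderiv ℝ (fun z => fderiv ℝ f z a) w b
      = fderiv ℝ (fderiv ℝ f) w b a := by
    intro a b
    have := fderiv_clm_apply (hd w) (differentiableAt_const (𝕜 := ℝ) (c := a) (x := w))
    rw [this]
    simp
  change fderiv ℝ (fun z => fderiv ℝ f z (1, 0)) w (0, 1)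
    = fderiv ℝ (fun z => fderiv ℝ f z (0, 1)) w (1, 0)
  rw [e1, e1]
  exact hsym _ _

theorem fderiv_eq_Du_Dv (f : ℝ × ℝ → V) (x h : ℝ × ℝ) :
    fderiv ℝ f x h = h.1 • Du f x + h.2 • Dv f x := by
  have : h = h.1 • ((1 : ℝ), (0 : ℝ)) + h.2 • ((0 : ℝ), (1 : ℝ)) := by
    ext <;> simp
  conv_lhs => rw [this]
  rw [map_add, map_smul, map_smul]
  rfl

end Calc

section Inner
variable {V : Type*} [NormedAddCommGroup V] [InnerProductSpace ℝ V]

theorem Du_inner {f g : ℝ × ℝ → V} (hf : Differentiable ℝ f) (hg : Differentiable ℝ g)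
    (x : ℝ × ℝ) : Du (fun w => ⟪f w, g w⟫) x = ⟪f x, Du g x⟫ + ⟪Du f x, g x⟫ :=
  fderiv_inner_apply ℝ (hf x) (hg x) _

theorem Dv_inner {f g : ℝ × ℝ → V} (hf : Differentiable ℝ f) (hg : Differentiable ℝ g)
    (x : ℝ × ℝ) : Dv (fun w => ⟪f w, g w⟫) x = ⟪f x, Dv g x⟫ + ⟪Dv f x, g x⟫ :=
  fderiv_inner_apply ℝ (hf x) (hg x) _

theorem Du_smul {c : ℝ × ℝ → ℝ} {f : ℝ × ℝ → V} (hc : Differentiable ℝ c)
    (hf : Differentiable ℝ f) (x : ℝ × ℝ) :
    Du (fun w => c w • f w) x = c x • Du f x + Du c x • f x := by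
  unfold Du
  have := fderiv_fun_smul (hc x) (hf x)
  rw [this]
  simp

theorem Dv_smul {c : ℝ × ℝ → ℝ} {f : ℝ × ℝ → V} (hc : Differentiable ℝ c)
    (hf : Differentiable ℝ f) (x : ℝ × ℝ) :
    Dv (fun w => c w • f w) x = c x • Dv f x + Dv c x • f x := by
  unfold Dv
  have := fderiv_fun_smul (hc x) (hf x)
  rw [this]
  simp

end Inner

/-- the cross product -/
noncomputable def cr (a b : E3) : E3 :=
  !₂[a 1 * b 2 - a 2 * b 1, a 2 * b 0 - a 0 * b 2, a 0 * b 1 - a 1 * b 0]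

theorem inner3 (a b : E3) : ⟪a, b⟫ = a 0 * b 0 + a 1 * b 1 + a 2 * b 2 := by
  rw [PiLp.inner_apply, Fin.sum_univ_three]
  simp [mul_comm]

theorem cr_zero (a b : E3) : (cr a b) 0 = a 1 * b 2 - a 2 * b 1 := rfl
theorem cr_one (a b : E3) : (cr a b) 1 = a 2 * b 0 - a 0 * b 2 := rfl
theorem cr_two (a b : E3) : (cr a b) 2 = a 0 * b 1 - a 1 * b 0 := rfl

theorem inner_cr_left (a b : E3) : ⟪a, cr a b⟫ = 0 := by
  rw [inner3, cr_zero, cr_one, cr_two]; ring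

theorem inner_cr_right (a b : E3) : ⟪b, cr a b⟫ = 0 := by
  rw [inner3, cr_zero, cr_one, cr_two]; ring

theorem inner_cr_cr (a b c d : E3) :
    ⟪cr a b, cr c d⟫ = ⟪a, c⟫ * ⟪b, d⟫ - ⟪a, d⟫ * ⟪b, c⟫ := by
  simp only [inner3, cr_zero, cr_one, cr_two]; ring

/-- Parseval's formula for the frame `e₁, e₂, e₁ × e₂` -/
theorem parseval {e₁ e₂ : E3} (h1 : ⟪e₁, e₁⟫ = 1) (h2 : ⟪e₂, e₂⟫ = 1) (h12 : ⟪e₁, e₂⟫ = 0)
    (x y : E3) : ⟪x, y⟫ = ⟪x, e₁⟫ * ⟪e₁, y⟫ + ⟪x, e₂⟫ * ⟪e₂, y⟫ +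
      ⟪x, cr e₁ e₂⟫ * ⟪cr e₁ e₂, y⟫ := by
  have hon : Orthonormal ℝ ![e₁, e₂, cr e₁ e₂] := by
    rw [orthonormal_iff_ite]
    have h33 : ⟪cr e₁ e₂, cr e₁ e₂⟫ = 1 := by
      rw [inner_cr_cr, h1, h2, h12]; ring
    have h21 : ⟪e₂, e₁⟫ = 0 := by rw [real_inner_comm]; exact h12
    have h31 : ⟪cr e₁ e₂, e₁⟫ = 0 := by rw [real_inner_comm]; exact inner_cr_left _ _
    have h32 : ⟪cr e₁ e₂, e₂⟫ = 0 := by rw [real_inner_comm]; exact inner_cr_right _ _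
    intro i j
    fin_cases i <;> fin_cases j <;>
      simp [h1, h2, h12, h33, h21, h31, h32, inner_cr_left, inner_cr_right,
        -inner_self_eq_norm_sq_to_K]
  have hsp : ⊤ ≤ Submodule.span ℝ (Set.range ![e₁, e₂, cr e₁ e₂]) := by
    rw [hon.linearIndependent.span_eq_top_of_card_eq_finrank (by simp)]
  have := (OrthonormalBasis.mk hon hsp).sum_inner_mul_inner x y
  rw [← this, Fin.sum_univ_three]
  simp

end Pool.Agent.TH613
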