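import Pool.Agent.TH613.Frame

set_option autoImplicit false

open scoped ContDiff RealInnerProductSpace Topology
open Set MeasureTheory Filter

namespace Pool.Agent.TH613

theorem second_deriv_nonpos {φ : ℝ → ℝ} (hc : ContinuousAt φ 0)
    (hmax : ∀ t, φ t ≤ φ 0) : deriv (deriv φ) 0 ≤ 0 := by
  by_contra hcon
  push Not at hcon
  have hloc : IsLocalMax φ 0 := Filter.Eventually.of_forall hmax
  have h0 := hloc.deriv_eq_zero
  have hmin := isLocalMin_of_deriv_deriv_pos hcon h0 hc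
  have hconst : φ =ᶠ[𝓝 0] fun _ => φ 0 := by
    filter_upwards [hmin] with t ht
    exact le_antisymm (hmax t) ht
  have h1 : deriv φ =ᶠ[𝓝 0] deriv fun _ => φ 0 := hconst.deriv
  have h2 := h1.deriv_eq
  rw [h2] at hcon
  simp at hcon

variable {R s r : ℝ} {f : ℝ × ℝ → E3}

theorem hasDerivAt_line {g : ℝ × ℝ → E3} (hg : Differentiable ℝ g) (p h : ℝ × ℝ) (ν : E3)
    (t : ℝ) : HasDerivAt (fun t : ℝ => ⟪g (p + t • h), ν⟫)
      (h.1 * ⟪Du g (p + t • h), ν⟫ + h.2 * ⟪Dv g (p + t • h), ν⟫) t := by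
  have h1 : HasDerivAt (fun t : ℝ => p + t • h) h t := by
    have := ((hasDerivAt_id t).smul_const h).const_add p
    simpa using this
  have h2 : HasDerivAt (fun t : ℝ => g (p + t • h)) (fderiv ℝ g (p + t • h) h) t :=
    (hg (p + t • h)).hasFDerivAt.comp_hasDerivAt t h1
  have h3 := h2.inner ℝ (hasDerivAt_const t ν)
  simp only [inner_zero_right, zero_add] at h3
  rw [fderiv_eq_Du_Dv, inner_add_left, real_inner_smul_left, real_inner_smul_left] at h3
  exact h3

/-- at a contact point with a plane orthogonal to `ν` the second fundamental form in the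
direction `ν` is semidefinite -/
theorem contact_hess (h : Rot R s r f) {p : ℝ × ℝ} {ν : E3}
    (hmax : ∀ q, ⟪f q, ν⟫ ≤ ⟪f p, ν⟫) :
    0 ≤ ⟪Du (Du f) p, ν⟫ * ⟪Dv (Dv f) p, ν⟫ - ⟪Du (Dv f) p, ν⟫ ^ 2 := by
  have hd : Differentiable ℝ f := h.smooth.differentiable (by norm_num)
  have key : ∀ a b : ℝ, a * (a * ⟪Du (Du f) p, ν⟫ + b * ⟪Du (Dv f) p, ν⟫) +
      b * (a * ⟪Du (Dv f) p, ν⟫ + b * ⟪Dv (Dv f) p, ν⟫) ≤ 0 := by
    intro a b
    have h1 := hasDerivAt_line hd p (a, b) ν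
    have h2 := second_deriv_nonpos (φ := fun t : ℝ => ⟪f (p + t • (a, b)), ν⟫)
      (h1 0).continuousAt (fun t => by simpa using hmax _)
    have h3 : deriv (fun t : ℝ => ⟪f (p + t • (a, b)), ν⟫) = fun t =>
        a * ⟪Du f (p + t • (a, b)), ν⟫ + b * ⟪Dv f (p + t • (a, b)), ν⟫ :=
      funext fun t => (h1 t).deriv
    rw [h3] at h2
    have h4 := ((hasDerivAt_line (d_Du h) p (a, b) ν 0).const_mul a).add
      ((hasDerivAt_line (d_Dv h) p (a, b) ν 0).const_mul b)
    have h5 : deriv (fun t : ℝ =>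
        a * ⟪Du f (p + t • (a, b)), ν⟫ + b * ⟪Dv f (p + t • (a, b)), ν⟫) 0 = _ := h4.deriv
    rw [h5] at h2
    simp only [zero_smul, add_zero] at h2
    rw [Dv_Du (h.smooth.of_le (by norm_num))] at h2
    exact h2
  set L := ⟪Du (Du f) p, ν⟫
  set M := ⟪Du (Dv f) p, ν⟫
  set N := ⟪Dv (Dv f) p, ν⟫
  have k1 := key 1 0
  have k2 := key M (-L)
  rcases (show L ≤ 0 by linarith).lt_or_eq with hL | hL
  · by_contra hcon
    push Not at hcon
    nlinarith [mul_pos_of_neg_of_neg hL hcon]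
  · rw [hL] at key ⊢
    have hM : M = 0 := by
      by_contra hM
      have k3 := key ((1 - N) / (2 * M)) 1
      have k4 : (1 - N) / (2 * M) * M = (1 - N) / 2 := by field_simp
      have k5 : (1 - N) / (2 * M) * ((1 - N) / (2 * M) * 0 + 1 * M) = (1 - N) / 2 := by
        rw [← k4]; ring
      rw [k5, k4] at k3
      linarith
    rw [hM]; simp

/-- two-sided version -/
theorem contact_hess' (h : Rot R s r f) {p : ℝ × ℝ} {ν : E3}
    (hmin : ∀ q, ⟪f p, ν⟫ ≤ ⟪f q, ν⟫) :
    0 ≤ ⟪Du (Du f) p, ν⟫ * ⟪Dv (Dv f) p, ν⟫ - ⟪Du (Dv f) p, ν⟫ ^ 2 := by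
  have := contact_hess h (p := p) (ν := -ν) (fun q => by
    rw [inner_neg_right, inner_neg_right]; linarith [hmin q])
  simpa [inner_neg_right] using this

/-- contact points with outward normal `N` -/
def Ep (R s r : ℝ) (f : ℝ × ℝ → E3) : Set (ℝ × ℝ) :=
  {p | ∀ q, ⟪f q, NN R s r f p⟫ ≤ ⟪f p, NN R s r f p⟫}

/-- contact points with outward normal `-N` -/
def Em (R s r : ℝ) (f : ℝ × ℝ → E3) : Set (ℝ × ℝ) :=
  {p | ∀ q, ⟪f p, NN R s r f p⟫ ≤ ⟪f q, NN R s r f p⟫}

theorem isClosed_Ep (h : Rot R s r f) : IsClosed (Ep R s r f) := by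
  have hc := (contDiff_NN h).continuous
  have hf := h.smooth.continuous
  unfold Ep
  rw [ofPred_forall]
  exact isClosed_iInter fun q => isClosed_le (continuous_const.inner hc) (hf.inner hc)

theorem isClosed_Em (h : Rot R s r f) : IsClosed (Em R s r f) := by
  have hc := (contDiff_NN h).continuous
  have hf := h.smooth.continuous
  unfold Em
  rw [ofPred_forall]
  exact isClosed_iInter fun q => isClosed_le (hf.inner hc) (continuous_const.inner hc)

theorem cos_nonneg_of_contact (h : Rot R s r f) (hs : 0 < s) {p : ℝ × ℝ}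
    (hp : p ∈ Ep R s r f ∨ p ∈ Em R s r f) : 0 ≤ Real.cos p.2 := by
  have h1 := det_N' h p
  have hA := AA_pos h p
  have h2 : 0 ≤ AA R s p * s * Real.cos p.2 := by
    rw [← h1]
    rcases hp with hp | hp
    · exact contact_hess h hp
    · exact contact_hess' h hp
  by_contra hcon
  push Not at hcon
  have : AA R s p * s * Real.cos p.2 < 0 := mul_neg_of_pos_of_neg (mul_pos hA hs) hcon
  linarith

theorem cos_zero_of_both (h : Rot R s r f) (hs : 0 < s) {p : ℝ × ℝ}
    (hp : p ∈ Ep R s r f) (hp' : p ∈ Em R s r f) : Real.cos p.2 = 0 := by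
  have hd : Differentiable ℝ f := h.smooth.differentiable (by norm_num)
  have hconst : ∀ q, ⟪f q, NN R s r f p⟫ = ⟪f p, NN R s r f p⟫ := fun q =>
    le_antisymm (hp q) (hp' q)
  have hA := AA_pos h p
  set ν := NN R s r f p with hν
  have hν' : Differentiable ℝ (fun _ : ℝ × ℝ => ν) := differentiable_const ν
  have du : ∀ q, ⟪Du f q, ν⟫ = 0 := by
    intro q
    have := Du_inner hd hν' q
    rw [Du_const hconst] at this
    simp only [Du, fderiv_fun_const] at this
    simpa [Du] using this.symm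
  have dv : ∀ q, ⟪Dv f q, ν⟫ = 0 := by
    intro q
    have := Dv_inner hd hν' q
    rw [Dv_const hconst] at this
    simp only [Dv, fderiv_fun_const] at this
    simpa [Dv] using this.symm
  have duu : ⟪Du (Du f) p, ν⟫ = 0 := by
    have := Du_inner (d_Du h) hν' p
    rw [Du_const du] at this
    simp only [Du, fderiv_fun_const] at this
    simpa [Du] using this.symm
  have duv : ⟪Du (Dv f) p, ν⟫ = 0 := by
    have := Du_inner (d_Dv h) hν' p
    rw [Du_const dv] at this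
    simp only [Du, fderiv_fun_const] at this
    simpa [Du] using this.symm
  have h1 := det_N' h p
  rw [← hν, duu, duv] at h1
  have h2 : AA R s p * s * Real.cos p.2 = 0 := by rw [← h1]; ring
  rcases mul_eq_zero.1 h2 with h3 | h3
  · exact absurd h3 (mul_pos hA hs).ne'
  · exact h3

/-- every unit vector is the outward normal of a contact point -/
theorem exists_contact (h : Rot R s r f) (h1 : ∀ x : ℝ × ℝ, f (x.1 + 2 * Real.pi, x.2) = f x)
    (h2 : ∀ x : ℝ × ℝ, f (x.1, x.2 + 2 * Real.pi) = f x) {ν : E3} (hν : ⟪ν, ν⟫ = 1) :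
    ∃ p : ℝ × ℝ, p.1 ∈ Ico 0 (2 * Real.pi) ∧ p.2 ∈ Ico (-Real.pi) Real.pi ∧
      ((NN R s r f p = ν ∧ p ∈ Ep R s r f) ∨ (NN R s r f p = -ν ∧ p ∈ Em R s r f)) := by
  have hd : Differentiable ℝ f := h.smooth.differentiable (by norm_num)
  have hf := h.smooth.continuous
  have hπ := Real.pi_pos
  -- reduction to the half open box
  have hred : ∀ q : ℝ × ℝ, ∃ q' : ℝ × ℝ, q'.1 ∈ Ico 0 (2 * Real.pi) ∧
      q'.2 ∈ Ico (-Real.pi) Real.pi ∧ f q' = f q := by
    intro q
    have e1 : ∀ (y : ℝ), Function.Periodic (fun x : ℝ => f (x, y)) (2 * Real.pi) :=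
      fun y x => h1 (x, y)
    have e2 : ∀ (x : ℝ), Function.Periodic (fun y : ℝ => f (x, y)) (2 * Real.pi) :=
      fun x y => h2 (x, y)
    obtain ⟨a, ha, ha'⟩ := (e1 q.2).exists_mem_Ico (by positivity) q.1 0
    obtain ⟨b, hb, hb'⟩ := (e2 a).exists_mem_Ico (by positivity) q.2 (-Real.pi)
    refine ⟨(a, b), by simpa using ha, ?_, ?_⟩
    · have : -Real.pi + 2 * Real.pi = Real.pi := by ring
      rw [this] at hb
      exact hb
    · rw [← hb', ← ha']
  obtain ⟨p₀, -, hp₀⟩ := (isCompact_Icc (a := ((0 : ℝ), -Real.pi)) (b := (2 * Real.pi, Real.pi))).exists_isMaxOn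
    ⟨(0, 0), ⟨⟨le_refl _, by simp [hπ.le]⟩, ⟨by simp [hπ.le], by simp [hπ.le]⟩⟩⟩
    (f := fun q => ⟪f q, ν⟫) (hf.inner continuous_const).continuousOn
  have hp₀' : ∀ q, ⟪f q, ν⟫ ≤ ⟪f p₀, ν⟫ := by
    intro q
    obtain ⟨q', a1, a2, a3⟩ := hred q
    rw [← a3]
    exact hp₀ ⟨⟨a1.1, a2.1⟩, ⟨a1.2.le, a2.2.le⟩⟩
  obtain ⟨p, b1, b2, b3⟩ := hred p₀
  have hp : ∀ q, ⟪f q, ν⟫ ≤ ⟪f p, ν⟫ := by
    intro q; rw [b3]; exact hp₀' q
  refine ⟨p, b1, b2, ?_⟩
  have hcrit : ∀ a b : ℝ, a * ⟪Du f p, ν⟫ + b * ⟪Dv f p, ν⟫ = 0 := by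
    intro a b
    have h3 := hasDerivAt_line hd p (a, b) ν 0
    have h4 : IsLocalMax (fun t : ℝ => ⟪f (p + t • (a, b)), ν⟫) 0 :=
      Filter.Eventually.of_forall fun t => by simpa using hp _
    have h5 := h4.hasDerivAt_eq_zero h3
    simpa using h5
  have c1 : ⟪ν, e1 R s f p⟫ = 0 := by
    unfold e1
    rw [real_inner_comm, real_inner_smul_left]
    have := hcrit 1 0
    simp only [one_mul, zero_mul, add_zero] at this
    rw [this]; simp
  have c2 : ⟪ν, e2 r f p⟫ = 0 := by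
    unfold e2
    rw [real_inner_comm, real_inner_smul_left]
    have := hcrit 0 1
    simp only [one_mul, zero_mul, zero_add] at this
    rw [this]; simp
  have c3 := parseval (e11 h p) (e22 h p) (e12 h p) ν ν
  rw [hν, c1, c2] at c3
  change 1 = 0 * _ + 0 * _ + ⟪ν, NN R s r f p⟫ * ⟪NN R s r f p, ν⟫ at c3
  rw [real_inner_comm ν (NN R s r f p)] at c3
  have c4 : (⟪ν, NN R s r f p⟫ - 1) * (⟪ν, NN R s r f p⟫ + 1) = 0 := by nlinarith
  have hn := NN_NN h p
  rcases mul_eq_zero.1 c4 with c5 | c5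
  · left
    have c6 : NN R s r f p = ν := by
      have : ⟪NN R s r f p - ν, NN R s r f p - ν⟫ = 0 := by
        rw [inner_sub_left, inner_sub_right, inner_sub_right, hn, hν,
          real_inner_comm ν (NN R s r f p)]
        linarith
      exact sub_eq_zero.1 (inner_self_eq_zero.1 this)
    refine ⟨c6, fun q => ?_⟩
    rw [c6]; exact hp q
  · right
    have c6 : NN R s r f p = -ν := by
      have : ⟪NN R s r f p + ν, NN R s r f p + ν⟫ = 0 := by
        rw [inner_add_left, inner_add_right, inner_add_right, hn, hν,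
          real_inner_comm ν (NN R s r f p)]
        linarith
      exact eq_neg_of_add_eq_zero_left (inner_self_eq_zero.1 this)
    refine ⟨c6, fun q => ?_⟩
    rw [c6, inner_neg_right, inner_neg_right]
    linarith [hp q]

end Pool.Agent.TH613
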