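import Pool.Agent.TH613.Calc

set_option autoImplicit false

open scoped ContDiff RealInnerProductSpace Topology
open Set MeasureTheory

namespace Pool.Agent.TH613

/-- The standing assumptions: `f` is of class `C³` and pulls the Euclidean metric back to
`(R + s cos v)² du² + r² dv²`. -/
structure Rot (R s r : ℝ) (f : ℝ × ℝ → E3) : Prop where
  hr : 0 < r
  hs : 0 ≤ s
  hR : s < R
  smooth : ContDiff ℝ 3 f
  uu : ∀ x, ⟪Du f x, Du f x⟫ = (R + s * Real.cos x.2) ^ 2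
  uv : ∀ x, ⟪Du f x, Dv f x⟫ = 0
  vv : ∀ x, ⟪Dv f x, Dv f x⟫ = r ^ 2

variable {R s r : ℝ} {f : ℝ × ℝ → E3}

/-- radius of the parallel -/
noncomputable def AA (R s : ℝ) (x : ℝ × ℝ) : ℝ := R + s * Real.cos x.2

theorem AA_pos (h : Rot R s r f) (x : ℝ × ℝ) : 0 < AA R s x := by
  have h1 := h.hs
  have h2 := h.hR
  have h3 := Real.neg_one_le_cos x.2
  unfold AA
  nlinarith

theorem AA_contDiff (R s : ℝ) {n : WithTop ℕ∞} : ContDiff ℝ n (AA R s) := by
  unfold AA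
  fun_prop

theorem Du_AA (R s : ℝ) (x : ℝ × ℝ) : Du (AA R s) x = 0 := by
  have : HasFDerivAt (AA R s) ((s * (-Real.sin x.2)) • ContinuousLinearMap.snd ℝ ℝ ℝ) x := by
    have h1 : HasFDerivAt (fun y : ℝ × ℝ => Real.cos y.2)
        ((-Real.sin x.2) • ContinuousLinearMap.snd ℝ ℝ ℝ) x :=
      HasFDerivAt.cos hasFDerivAt_snd
    have h2 := (h1.const_mul s).const_add R
    rw [smul_smul] at h2
    exact h2
  unfold Du
  rw [this.fderiv]
  simp

theorem Dv_AA (R s : ℝ) (x : ℝ × ℝ) : Dv (AA R s) x = -(s * Real.sin x.2) := by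
  have : HasFDerivAt (AA R s) ((s * (-Real.sin x.2)) • ContinuousLinearMap.snd ℝ ℝ ℝ) x := by
    have h1 : HasFDerivAt (fun y : ℝ × ℝ => Real.cos y.2)
        ((-Real.sin x.2) • ContinuousLinearMap.snd ℝ ℝ ℝ) x :=
      HasFDerivAt.cos hasFDerivAt_snd
    have h2 := (h1.const_mul s).const_add R
    rw [smul_smul] at h2
    exact h2
  unfold Dv
  rw [this.fderiv]
  simp

/-- unit tangent vector in the direction `∂/∂u` -/
noncomputable def e1 (R s : ℝ) (f : ℝ × ℝ → E3) (x : ℝ × ℝ) : E3 := (AA R s x)⁻¹ • Du f x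

/-- unit tangent vector in the direction `∂/∂v` -/
noncomputable def e2 (r : ℝ) (f : ℝ × ℝ → E3) (x : ℝ × ℝ) : E3 := r⁻¹ • Dv f x

/-- unit normal -/
noncomputable def NN (R s r : ℝ) (f : ℝ × ℝ → E3) (x : ℝ × ℝ) : E3 :=
  cr (e1 R s f x) (e2 r f x)

theorem contDiff_e1 (h : Rot R s r f) : ContDiff ℝ 2 (e1 R s f) := by
  have h1 : ContDiff ℝ 2 (Du f) := contDiff_Du (n := 2) (by exact_mod_cast h.smooth)
  have h2 : ContDiff ℝ 2 (fun x => (AA R s x)⁻¹) :=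
    (AA_contDiff R s).inv fun x => (AA_pos h x).ne'
  exact h2.smul h1

theorem contDiff_e2 (h : Rot R s r f) : ContDiff ℝ 2 (e2 r f) := by
  have h1 : ContDiff ℝ 2 (Dv f) := contDiff_Dv (n := 2) (by exact_mod_cast h.smooth)
  exact h1.const_smul r⁻¹

theorem contDiff_coord {g : ℝ × ℝ → E3} {n : WithTop ℕ∞} (hg : ContDiff ℝ n g) (i : Fin 3) :
    ContDiff ℝ n (fun x => g x i) := (contDiff_euclidean.1 hg) i

theorem contDiff_NN (h : Rot R s r f) : ContDiff ℝ 2 (NN R s r f) := by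
  have h1 := contDiff_coord (contDiff_e1 h)
  have h2 := contDiff_coord (contDiff_e2 h)
  rw [contDiff_euclidean]
  intro i
  fin_cases i
  · exact ((h1 1).mul (h2 2)).sub ((h1 2).mul (h2 1))
  · exact ((h1 2).mul (h2 0)).sub ((h1 0).mul (h2 2))
  · exact ((h1 0).mul (h2 1)).sub ((h1 1).mul (h2 0))

theorem e11 (h : Rot R s r f) (x : ℝ × ℝ) : ⟪e1 R s f x, e1 R s f x⟫ = 1 := by
  have h1 := (AA_pos h x).ne'
  unfold e1
  rw [real_inner_smul_left, real_inner_smul_right, h.uu]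
  change (AA R s x)⁻¹ * ((AA R s x)⁻¹ * (AA R s x) ^ 2) = 1
  field_simp

theorem e12 (h : Rot R s r f) (x : ℝ × ℝ) : ⟪e1 R s f x, e2 r f x⟫ = 0 := by
  unfold e1 e2
  rw [real_inner_smul_left, real_inner_smul_right, h.uv]
  simp

theorem e22 (h : Rot R s r f) (x : ℝ × ℝ) : ⟪e2 r f x, e2 r f x⟫ = 1 := by
  have h1 := h.hr.ne'
  unfold e2
  rw [real_inner_smul_left, real_inner_smul_right, h.vv]
  field_simp

theorem e1N (x : ℝ × ℝ) : ⟪e1 R s f x, NN R s r f x⟫ = 0 := inner_cr_left _ _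
theorem e2N (x : ℝ × ℝ) : ⟪e2 r f x, NN R s r f x⟫ = 0 := inner_cr_right _ _
theorem NN_NN (h : Rot R s r f) (x : ℝ × ℝ) : ⟪NN R s r f x, NN R s r f x⟫ = 1 := by
  unfold NN
  rw [inner_cr_cr, e11 h, e22 h, e12 h]; ring

theorem d_e1 (h : Rot R s r f) : Differentiable ℝ (e1 R s f) :=
  (contDiff_e1 h).differentiable (by norm_num)
theorem d_e2 (h : Rot R s r f) : Differentiable ℝ (e2 r f) :=
  (contDiff_e2 h).differentiable (by norm_num)
theorem d_NN (h : Rot R s r f) : Differentiable ℝ (NN R s r f) :=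
  (contDiff_NN h).differentiable (by norm_num)
theorem d_Du (h : Rot R s r f) : Differentiable ℝ (Du f) :=
  (contDiff_Du (n := 2) (by exact_mod_cast h.smooth)).differentiable (by norm_num)
theorem d_Dv (h : Rot R s r f) : Differentiable ℝ (Dv f) :=
  (contDiff_Dv (n := 2) (by exact_mod_cast h.smooth)).differentiable (by norm_num)

/-- derivative of a constant inner product -/
theorem Du_const {c : ℝ} {g : ℝ × ℝ → ℝ} (hg : ∀ x, g x = c) (x : ℝ × ℝ) : Du g x = 0 := by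
  have : g = fun _ => c := funext hg
  rw [this]; simp [Du]

theorem Dv_const {c : ℝ} {g : ℝ × ℝ → ℝ} (hg : ∀ x, g x = c) (x : ℝ × ℝ) : Dv g x = 0 := by
  have : g = fun _ => c := funext hg
  rw [this]; simp [Dv]

/-- `⟨∂ᵤ e₁, e₂⟩ = s sin v / r` -/
theorem omega_u (h : Rot R s r f) (x : ℝ × ℝ) :
    ⟪Du (e1 R s f) x, e2 r f x⟫ = s * Real.sin x.2 / r := by
  have hA := (AA_pos h x).ne'
  have hr := h.hr.ne'
  have h1 : Du (e1 R s f) x = (AA R s x)⁻¹ • Du (Du f) x := by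
    have hc : Differentiable ℝ (fun x => (AA R s x)⁻¹) :=
      ((AA_contDiff R s (n := 1)).inv fun x => (AA_pos h x).ne').differentiable (by norm_num)
    have h2 := Du_smul hc (d_Du h) x
    have h3 : Du (fun x => (AA R s x)⁻¹) x = 0 := by
      have h4 := Du_AA R s x
      unfold Du at h4 ⊢
      have h5 : HasFDerivAt (AA R s) (fderiv ℝ (AA R s) x) x :=
        ((AA_contDiff R s (n := 1)).differentiable (by norm_num) x).hasFDerivAt
      have h6 : HasFDerivAt (fun x => (AA R s x)⁻¹) _ x :=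
        (hasDerivAt_inv hA).comp_hasFDerivAt x h5
      rw [h6.fderiv]
      simp [h4]
    rw [h3, zero_smul, add_zero] at h2
    exact h2
  have h2 : ⟪Du f x, Du (Dv f) x⟫ + ⟪Du (Du f) x, Dv f x⟫ = 0 := by
    rw [← Du_inner (d_Du h) (d_Dv h)]
    exact Du_const h.uv x
  have h3 : ⟪Du f x, Dv (Du f) x⟫ + ⟪Dv (Du f) x, Du f x⟫ =
      2 * AA R s x * (-(s * Real.sin x.2)) := by
    rw [← Dv_inner (d_Du h) (d_Du h)]
    have h4 : (fun w => ⟪Du f w, Du f w⟫) = fun w => AA R s w * AA R s w := by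
      funext w; rw [h.uu]; unfold AA; ring
    rw [h4]
    have hd : DifferentiableAt ℝ (AA R s) x :=
      (AA_contDiff R s (n := 1)).differentiable (by norm_num) x
    have h5 := Dv_AA R s x
    unfold Dv at h5 ⊢
    rw [fderiv_fun_mul hd hd]
    simp only [add_apply, smul_apply, smul_eq_mul, h5]
    ring
  rw [real_inner_comm (Du f x) (Dv (Du f) x)] at h3
  rw [Dv_Du (h.smooth.of_le (by norm_num))] at h3
  rw [real_inner_comm] at h3
  rw [h1]
  unfold e2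
  rw [real_inner_smul_left, real_inner_smul_right]
  have h4 : ⟪Du (Du f) x, Dv f x⟫ = AA R s x * (s * Real.sin x.2) := by
    rw [real_inner_comm] at h3
    linarith
  rw [h4]
  field_simp

/-- `⟨∂ᵥ e₁, e₂⟩ = 0` -/
theorem omega_v (h : Rot R s r f) (x : ℝ × ℝ) : ⟪Dv (e1 R s f) x, e2 r f x⟫ = 0 := by
  have hA := (AA_pos h x).ne'
  have hr := h.hr.ne'
  have hc : Differentiable ℝ (fun x => (AA R s x)⁻¹) :=
    ((AA_contDiff R s (n := 1)).inv fun x => (AA_pos h x).ne').differentiable (by norm_num)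
  have h2 : Dv (e1 R s f) x = _ := Dv_smul hc (d_Du h) x
  have h3 : ⟪Dv f x, Du (Dv f) x⟫ + ⟪Du (Dv f) x, Dv f x⟫ = 0 := by
    rw [← Du_inner (d_Dv h) (d_Dv h)]
    exact Du_const h.vv x
  rw [real_inner_comm] at h3
  rw [h2, inner_add_left, real_inner_smul_left, real_inner_smul_left]
  unfold e2
  rw [real_inner_smul_right, real_inner_smul_right, h.uv, Dv_Du (h.smooth.of_le (by norm_num))]
  have h4 : ⟪Du (Dv f) x, Dv f x⟫ = 0 := by linarith
  rw [h4]; ring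

/-- the Gauss equation in the moving frame -/
theorem gauss_eq (h : Rot R s r f) (x : ℝ × ℝ) :
    ⟪Dv (e1 R s f) x, Du (e2 r f) x⟫ - ⟪Du (e1 R s f) x, Dv (e2 r f) x⟫ =
      -(s * Real.cos x.2 / r) := by
  have h1 : Differentiable ℝ (Dv (e1 R s f)) :=
    (contDiff_Dv (n := 1) (by exact_mod_cast contDiff_e1 h)).differentiable (by norm_num)
  have h2 : Differentiable ℝ (Du (e1 R s f)) :=
    (contDiff_Du (n := 1) (by exact_mod_cast contDiff_e1 h)).differentiable (by norm_num)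
  have h3 := Du_inner h1 (d_e2 h) x
  have h4 := Dv_inner h2 (d_e2 h) x
  rw [Du_const (omega_v h)] at h3
  have h5 : Dv (fun w => ⟪Du (e1 R s f) w, e2 r f w⟫) x = s * Real.cos x.2 / r := by
    have h6 : (fun w => ⟪Du (e1 R s f) w, e2 r f w⟫) = fun w => s * Real.sin w.2 / r :=
      funext (omega_u h)
    rw [h6]
    have h7 : HasFDerivAt (fun y : ℝ × ℝ => s * Real.sin y.2 / r)
        (r⁻¹ • (s • (Real.cos x.2 • ContinuousLinearMap.snd ℝ ℝ ℝ))) x := by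
      have h8 : HasFDerivAt (fun y : ℝ × ℝ => Real.sin y.2)
          (Real.cos x.2 • ContinuousLinearMap.snd ℝ ℝ ℝ) x := HasFDerivAt.sin hasFDerivAt_snd
      have h9 := (h8.const_mul s).mul_const r⁻¹
      simpa [div_eq_mul_inv] using h9
    unfold Dv
    rw [h7.fderiv]
    simp
    ring
  rw [h5] at h4
  rw [Dv_Du (contDiff_e1 h)] at h4
  linarith

/-- `det (N, ∂ᵤ N, ∂ᵥ N) = s cos v / r` -/
theorem det_N (h : Rot R s r f) (x : ℝ × ℝ) :
    ⟪NN R s r f x, cr (Du (NN R s r f) x) (Dv (NN R s r f) x)⟫ = s * Real.cos x.2 / r := by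
  have a1 : ⟪e1 R s f x, Du (NN R s r f) x⟫ + ⟪Du (e1 R s f) x, NN R s r f x⟫ = 0 := by
    rw [← Du_inner (d_e1 h) (d_NN h)]; exact Du_const (fun x => e1N x) x
  have a2 : ⟪e1 R s f x, Dv (NN R s r f) x⟫ + ⟪Dv (e1 R s f) x, NN R s r f x⟫ = 0 := by
    rw [← Dv_inner (d_e1 h) (d_NN h)]; exact Dv_const (fun x => e1N x) x
  have b1 : ⟪e2 r f x, Du (NN R s r f) x⟫ + ⟪Du (e2 r f) x, NN R s r f x⟫ = 0 := by
    rw [← Du_inner (d_e2 h) (d_NN h)]; exact Du_const (fun x => e2N x) x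
  have b2 : ⟪e2 r f x, Dv (NN R s r f) x⟫ + ⟪Dv (e2 r f) x, NN R s r f x⟫ = 0 := by
    rw [← Dv_inner (d_e2 h) (d_NN h)]; exact Dv_const (fun x => e2N x) x
  have c1 : ⟪e1 R s f x, Du (e1 R s f) x⟫ + ⟪Du (e1 R s f) x, e1 R s f x⟫ = 0 := by
    rw [← Du_inner (d_e1 h) (d_e1 h)]; exact Du_const (e11 h) x
  have c2 : ⟪e1 R s f x, Dv (e1 R s f) x⟫ + ⟪Dv (e1 R s f) x, e1 R s f x⟫ = 0 := by
    rw [← Dv_inner (d_e1 h) (d_e1 h)]; exact Dv_const (e11 h) x
  have d1 : ⟪e2 r f x, Du (e2 r f) x⟫ + ⟪Du (e2 r f) x, e2 r f x⟫ = 0 := by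
    rw [← Du_inner (d_e2 h) (d_e2 h)]; exact Du_const (e22 h) x
  have d2 : ⟪e2 r f x, Dv (e2 r f) x⟫ + ⟪Dv (e2 r f) x, e2 r f x⟫ = 0 := by
    rw [← Dv_inner (d_e2 h) (d_e2 h)]; exact Dv_const (e22 h) x
  have g := gauss_eq h x
  rw [parseval (e11 h x) (e22 h x) (e12 h x) (Dv (e1 R s f) x) (Du (e2 r f) x),
    parseval (e11 h x) (e22 h x) (e12 h x) (Du (e1 R s f) x) (Dv (e2 r f) x)] at g
  rw [real_inner_comm] at c1 c2 d1 d2
  have c1' : ⟪Du (e1 R s f) x, e1 R s f x⟫ = 0 := by linarith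
  have c2' : ⟪Dv (e1 R s f) x, e1 R s f x⟫ = 0 := by linarith
  have d1' : ⟪e2 r f x, Du (e2 r f) x⟫ = 0 := by rw [real_inner_comm]; linarith
  have d2' : ⟪e2 r f x, Dv (e2 r f) x⟫ = 0 := by rw [real_inner_comm]; linarith
  rw [c1', c2', d1', d2'] at g
  have e3 : ⟪cr (e1 R s f x) (e2 r f x), Du (e2 r f) x⟫ = - ⟪e2 r f x, Du (NN R s r f) x⟫ := by
    rw [real_inner_comm]
    change ⟪Du (e2 r f) x, NN R s r f x⟫ = _
    linarith
  have e4 : ⟪cr (e1 R s f x) (e2 r f x), Dv (e2 r f) x⟫ = - ⟪e2 r f x, Dv (NN R s r f) x⟫ := by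
    rw [real_inner_comm]
    change ⟪Dv (e2 r f) x, NN R s r f x⟫ = _
    linarith
  have e5 : ⟪Dv (e1 R s f) x, cr (e1 R s f x) (e2 r f x)⟫ = - ⟪e1 R s f x, Dv (NN R s r f) x⟫ := by
    change ⟪Dv (e1 R s f) x, NN R s r f x⟫ = _
    linarith
  have e6 : ⟪Du (e1 R s f) x, cr (e1 R s f x) (e2 r f x)⟫ = - ⟪e1 R s f x, Du (NN R s r f) x⟫ := by
    change ⟪Du (e1 R s f) x, NN R s r f x⟫ = _
    linarith
  rw [e3, e4, e5, e6] at g
  have k : ⟪NN R s r f x, cr (Du (NN R s r f) x) (Dv (NN R s r f) x)⟫ =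
      ⟪e1 R s f x, Du (NN R s r f) x⟫ * ⟪e2 r f x, Dv (NN R s r f) x⟫ -
      ⟪e1 R s f x, Dv (NN R s r f) x⟫ * ⟪e2 r f x, Du (NN R s r f) x⟫ := inner_cr_cr _ _ _ _
  rw [k]
  linarith

/-- the same determinant through the second fundamental form -/
theorem det_N' (h : Rot R s r f) (x : ℝ × ℝ) :
    ⟪Du (Du f) x, NN R s r f x⟫ * ⟪Dv (Dv f) x, NN R s r f x⟫ -
      ⟪Du (Dv f) x, NN R s r f x⟫ ^ 2 = AA R s x * s * Real.cos x.2 := by
  have hA := (AA_pos h x).ne'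
  have hr := h.hr.ne'
  have u1 : ∀ x, ⟪Du f x, NN R s r f x⟫ = 0 := by
    intro x
    have := e1N (R := R) (s := s) (r := r) (f := f) x
    unfold e1 at this
    rw [real_inner_smul_left] at this
    rcases mul_eq_zero.1 this with h1 | h1
    · exact absurd h1 (inv_ne_zero (AA_pos h x).ne')
    · exact h1
  have u2 : ∀ x, ⟪Dv f x, NN R s r f x⟫ = 0 := by
    intro x
    have := e2N (R := R) (s := s) (r := r) (f := f) x
    unfold e2 at this
    rw [real_inner_smul_left] at this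
    rcases mul_eq_zero.1 this with h1 | h1
    · exact absurd h1 (inv_ne_zero hr)
    · exact h1
  have a1 : ⟪Du f x, Du (NN R s r f) x⟫ + ⟪Du (Du f) x, NN R s r f x⟫ = 0 := by
    rw [← Du_inner (d_Du h) (d_NN h)]; exact Du_const u1 x
  have a2 : ⟪Du f x, Dv (NN R s r f) x⟫ + ⟪Dv (Du f) x, NN R s r f x⟫ = 0 := by
    rw [← Dv_inner (d_Du h) (d_NN h)]; exact Dv_const u1 x
  have b1 : ⟪Dv f x, Du (NN R s r f) x⟫ + ⟪Du (Dv f) x, NN R s r f x⟫ = 0 := by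
    rw [← Du_inner (d_Dv h) (d_NN h)]; exact Du_const u2 x
  have b2 : ⟪Dv f x, Dv (NN R s r f) x⟫ + ⟪Dv (Dv f) x, NN R s r f x⟫ = 0 := by
    rw [← Dv_inner (d_Dv h) (d_NN h)]; exact Dv_const u2 x
  rw [Dv_Du (h.smooth.of_le (by norm_num))] at a2
  have k : ⟪NN R s r f x, cr (Du (NN R s r f) x) (Dv (NN R s r f) x)⟫ =
      ⟪e1 R s f x, Du (NN R s r f) x⟫ * ⟪e2 r f x, Dv (NN R s r f) x⟫ -
      ⟪e1 R s f x, Dv (NN R s r f) x⟫ * ⟪e2 r f x, Du (NN R s r f) x⟫ := inner_cr_cr _ _ _ _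
  rw [det_N h] at k
  unfold e1 e2 at k
  simp only [real_inner_smul_left] at k
  have c1 : ⟪Du f x, Du (NN R s r f) x⟫ = -⟪Du (Du f) x, NN R s r f x⟫ := by linarith
  have c2 : ⟪Du f x, Dv (NN R s r f) x⟫ = -⟪Du (Dv f) x, NN R s r f x⟫ := by linarith
  have c3 : ⟪Dv f x, Du (NN R s r f) x⟫ = -⟪Du (Dv f) x, NN R s r f x⟫ := by linarith
  have c4 : ⟪Dv f x, Dv (NN R s r f) x⟫ = -⟪Dv (Dv f) x, NN R s r f x⟫ := by linarith
  rw [c1, c2, c3, c4] at k
  field_simp at k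
  linarith

end Pool.Agent.TH613
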